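import Pool.Agent.helper73.TC.XDefs

/-! # TX-F1: a bistellar flip is a homeomorphism of realizations -/

set_option autoImplicit false
open Topology

noncomputable section
namespace Pool.Agent.helper73.TC

namespace F1

variable {V : Type} [Fintype V] [DecidableEq V]

/-- the flip map on weights -/
def fl (A B : Finset V) (hA : A.Nonempty) (x : V → ℝ) (v : V) : ℝ :=
  x v - (if v ∈ A then A.inf' hA x else 0) +
    (if v ∈ B then ((A.card : ℝ) / B.card) * A.inf' hA x else 0)

theorem inf_nonneg {A : Finset V} (hA : A.Nonempty) {x : V → ℝ} (hx : ∀ v, 0 ≤ x v) :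
    0 ≤ A.inf' hA x := by
  rw [Finset.le_inf'_iff]
  exact fun v _ => hx v

theorem fl_nonneg {A B : Finset V} (hAB : Disjoint A B) (hA : A.Nonempty) {x : V → ℝ}
    (hx : ∀ v, 0 ≤ x v) (v : V) : 0 ≤ fl A B hA x v := by
  unfold fl
  have hm := inf_nonneg hA hx
  have h2 : 0 ≤ (if v ∈ B then ((A.card : ℝ) / B.card) * A.inf' hA x else 0) := by
    split_ifs
    · positivity
    · exact le_rfl
  by_cases h : v ∈ A
  · have h3 : A.inf' hA x ≤ x v := Finset.inf'_le x h
    rw [if_pos h]
    linarith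
  · rw [if_neg h]
    have := hx v
    linarith

theorem fl_sum {A B : Finset V} (hA : A.Nonempty) (hB : B.Nonempty) (x : V → ℝ) :
    ∑ v, fl A B hA x v = ∑ v, x v := by
  unfold fl
  rw [Finset.sum_add_distrib, Finset.sum_sub_distrib]
  rw [Finset.sum_ite_mem, Finset.sum_ite_mem, Finset.univ_inter, Finset.univ_inter,
    Finset.sum_const, Finset.sum_const, nsmul_eq_mul, nsmul_eq_mul]
  have hb : (B.card : ℝ) ≠ 0 := by
    have := hB.card_pos
    positivity
  field_simp
  ring

theorem fl_of_zero {A B : Finset V} (hA : A.Nonempty) {x : V → ℝ} (h : A.inf' hA x = 0) :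
    fl A B hA x = x := by
  funext v
  unfold fl
  rw [h]
  simp

theorem inf_A {A B : Finset V} (hAB : Disjoint A B) (hA : A.Nonempty) (x : V → ℝ) :
    A.inf' hA (fl A B hA x) = 0 := by
  have h : ∀ v ∈ A, fl A B hA x v = x v - A.inf' hA x := by
    intro v hv
    unfold fl
    rw [if_pos hv, if_neg (Finset.disjoint_left.mp hAB hv), add_zero]
  obtain ⟨a, ha, hax⟩ := Finset.exists_mem_eq_inf' hA x
  apply le_antisymm
  · refine (Finset.inf'_le _ ha).trans ?_
    rw [h a ha, ← hax, sub_self]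
  · rw [Finset.le_inf'_iff]
    intro v hv
    rw [h v hv]
    have := Finset.inf'_le x hv
    linarith

theorem inf_B {A B : Finset V} (hAB : Disjoint A B) (hA : A.Nonempty) (hB : B.Nonempty)
    (x : V → ℝ) :
    B.inf' hB (fl A B hA x) = B.inf' hB x + ((A.card : ℝ) / B.card) * A.inf' hA x := by
  have h : ∀ v ∈ B, fl A B hA x v = x v + ((A.card : ℝ) / B.card) * A.inf' hA x := by
    intro v hv
    unfold fl
    rw [if_pos hv, if_neg (Finset.disjoint_right.mp hAB hv), sub_zero]
  obtain ⟨b, hb, hbx⟩ := Finset.exists_mem_eq_inf' hB x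
  apply le_antisymm
  · refine (Finset.inf'_le _ hb).trans ?_
    rw [h b hb, ← hbx]
  · rw [Finset.le_inf'_iff]
    intro v hv
    rw [h v hv]
    have := Finset.inf'_le x hv
    linarith

theorem fl_fl {A B : Finset V} (hAB : Disjoint A B) (hA : A.Nonempty) (hB : B.Nonempty)
    {x : V → ℝ} (h0 : B.inf' hB x = 0) : fl B A hB (fl A B hA x) = x := by
  have hi := inf_B hAB hA hB x
  rw [h0, zero_add] at hi
  have ha : (A.card : ℝ) ≠ 0 := by
    have := hA.card_pos
    positivity
  have hb : (B.card : ℝ) ≠ 0 := by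
    have := hB.card_pos
    positivity
  funext v
  rw [fl, hi]
  unfold fl
  by_cases h1 : v ∈ A
  · have h2 : v ∉ B := Finset.disjoint_left.mp hAB h1
    simp only [h1, h2, if_true, if_false]
    field_simp
    ring
  · by_cases h2 : v ∈ B
    · simp only [h1, h2, if_true, if_false]
      ring
    · simp only [h1, h2, if_false]
      ring

theorem continuous_fl {A B : Finset V} (hA : A.Nonempty) :
    Continuous (fun x : V → ℝ => fl A B hA x) := by
  have hm : Continuous (fun x : V → ℝ => A.inf' hA x) :=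
    Continuous.finset_inf'_apply hA fun i _ => continuous_apply i
  refine continuous_pi fun v => ?_
  unfold fl
  refine Continuous.add (Continuous.sub (continuous_apply v) ?_) ?_
  · split_ifs
    · exact hm
    · exact continuous_const
  · split_ifs
    · exact continuous_const.mul hm
    · exact continuous_const

/-- the flip map on the standard simplex -/
def flS {A B : Finset V} (hAB : Disjoint A B) (hA : A.Nonempty) (hB : B.Nonempty)
    (w : stdSimplex ℝ V) : stdSimplex ℝ V :=
  ⟨fl A B hA (w : V → ℝ), fun v => fl_nonneg hAB hA w.2.1 v, by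
    rw [fl_sum hA hB]
    exact w.2.2⟩

theorem continuous_flS {A B : Finset V} (hAB : Disjoint A B) (hA : A.Nonempty)
    (hB : B.Nonempty) : Continuous (flS hAB hA hB) :=
  Continuous.subtype_mk ((continuous_fl hA).comp continuous_subtype_val) _

/-- the support -/
abbrev sp (x : V → ℝ) : Finset V := Finset.univ.filter fun v => 0 < x v

theorem inf_zero_of_not_subset {A : Finset V} (hA : A.Nonempty) {x : V → ℝ}
    (hx : ∀ v, 0 ≤ x v) (h : ¬ A ⊆ sp x) : A.inf' hA x = 0 := by
  rw [Finset.not_subset] at h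
  obtain ⟨a, ha, hna⟩ := h
  rw [Finset.mem_filter] at hna
  have h0 : x a ≤ 0 := by
    by_contra hc
    exact hna ⟨Finset.mem_univ _, not_le.mp hc⟩
  exact le_antisymm ((Finset.inf'_le x ha).trans h0) (inf_nonneg hA hx)

theorem subset_of_inf_ne {A : Finset V} (hA : A.Nonempty) {x : V → ℝ}
    (hx : ∀ v, 0 ≤ x v) (h : A.inf' hA x ≠ 0) : A ⊆ sp x := by
  by_contra hc
  exact h (inf_zero_of_not_subset hA hx hc)

theorem not_subset_of_inf_zero {A : Finset V} (hA : A.Nonempty) {x : V → ℝ}
    (h : A.inf' hA x = 0) : ∃ a ∈ A, a ∉ sp x := by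
  obtain ⟨a, ha, hax⟩ := Finset.exists_mem_eq_inf' hA x
  refine ⟨a, ha, ?_⟩
  rw [Finset.mem_filter]
  rintro ⟨-, h1⟩
  rw [← hax, h] at h1
  exact lt_irrefl _ h1

theorem sp_fl_subset {A B : Finset V} (hA : A.Nonempty) {x : V → ℝ}
    (h : sp x ⊆ A ∪ B) : sp (fl A B hA x) ⊆ A ∪ B := by
  intro v hv
  by_contra hc
  rw [Finset.mem_union, not_or] at hc
  rw [Finset.mem_filter] at hv
  have hv2 := hv.2
  unfold fl at hv2
  rw [if_neg hc.1, if_neg hc.2, sub_zero, add_zero] at hv2
  have : v ∈ A ∪ B := h (Finset.mem_filter.mpr ⟨Finset.mem_univ _, hv2⟩)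
  rw [Finset.mem_union] at this
  rcases this with h1 | h1
  · exact hc.1 h1
  · exact hc.2 h1

end F1

theorem flip_homeo {V : Type} [Fintype V] [DecidableEq V] (X : Set (Finset V)) (hX : DownClosed X)
    (A B : Finset V) (hAB : Disjoint A B) (hA : A.Nonempty) (hB : B.Nonempty)
    (h1 : ∀ s ∈ X, A ⊆ s → s ⊆ A ∪ B) (h2 : ∀ b ∈ B, A ∪ B.erase b ∈ X) (h3 : B ∉ X)
    (Y : Set (Finset V)) (hY : ∀ s, s ∈ Y ↔ ¬ A ⊆ s ∧ (s ∈ X ∨ s ⊆ A ∪ B)) :
    Nonempty (Real X ≃ₜ Real Y) := by
  have hXB : ∀ w : Real X, B.inf' hB (w.1 : V → ℝ) = 0 := by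
    intro w
    refine F1.inf_zero_of_not_subset hB w.1.2.1 fun hc => h3 (hX _ w.2 _ hc)
  have hYA : ∀ w : Real Y, A.inf' hA (w.1 : V → ℝ) = 0 := by
    intro w
    exact F1.inf_zero_of_not_subset hA w.1.2.1 ((hY _).mp w.2).1
  have hf : ∀ w : Real X, F1.sp ((F1.flS hAB hA hB w.1 : stdSimplex ℝ V) : V → ℝ) ∈ Y := by
    intro w
    rw [hY]
    constructor
    · obtain ⟨a, ha, hna⟩ := F1.not_subset_of_inf_zero hA (F1.inf_A hAB hA (w.1 : V → ℝ))
      exact fun hc => hna (hc ha)
    · by_cases hm : A.inf' hA (w.1 : V → ℝ) = 0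
      · left
        have : ((F1.flS hAB hA hB w.1 : stdSimplex ℝ V) : V → ℝ) = (w.1 : V → ℝ) :=
          F1.fl_of_zero hA hm
        rw [this]
        exact w.2
      · right
        exact F1.sp_fl_subset hA (h1 _ w.2 (F1.subset_of_inf_ne hA w.1.2.1 hm))
  have hg : ∀ w : Real Y, F1.sp ((F1.flS hAB.symm hB hA w.1 : stdSimplex ℝ V) : V → ℝ) ∈ X := by
    intro w
    obtain ⟨b, hb, hnb⟩ := F1.not_subset_of_inf_zero hB (F1.inf_A hAB.symm hB (w.1 : V → ℝ))
    have key : F1.sp (w.1 : V → ℝ) ⊆ A ∪ B →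
        F1.sp ((F1.flS hAB.symm hB hA w.1 : stdSimplex ℝ V) : V → ℝ) ∈ X := by
      intro hs
      refine hX _ (h2 b hb) _ ?_
      intro v hv
      have hv' : v ∈ B ∪ A := F1.sp_fl_subset (A := B) (B := A) hB
        (by rw [Finset.union_comm]; exact hs) hv
      rw [Finset.mem_union] at hv' ⊢
      rcases hv' with h | h
      · right
        rw [Finset.mem_erase]
        refine ⟨?_, h⟩
        rintro rfl
        exact hnb hv
      · left
        exact h
    rcases ((hY _).mp w.2).2 with hs | hs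
    · by_cases hm : B.inf' hB (w.1 : V → ℝ) = 0
      · have : ((F1.flS hAB.symm hB hA w.1 : stdSimplex ℝ V) : V → ℝ) = (w.1 : V → ℝ) :=
          F1.fl_of_zero hB hm
        rw [this]
        exact hs
      · exact absurd (hX _ hs _ (F1.subset_of_inf_ne hB w.1.2.1 hm)) h3
    · exact key hs
  refine ⟨{ toFun := fun w => ⟨F1.flS hAB hA hB w.1, hf w⟩
            invFun := fun w => ⟨F1.flS hAB.symm hB hA w.1, hg w⟩
            left_inv := ?_
            right_inv := ?_
            continuous_toFun := ?_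
            continuous_invFun := ?_ }⟩
  · intro w
    apply Subtype.ext
    apply Subtype.ext
    exact F1.fl_fl hAB hA hB (hXB w)
  · intro w
    apply Subtype.ext
    apply Subtype.ext
    exact F1.fl_fl hAB.symm hB hA (hYA w)
  · exact Continuous.subtype_mk ((F1.continuous_flS hAB hA hB).comp continuous_subtype_val) _
  · exact Continuous.subtype_mk ((F1.continuous_flS hAB.symm hB hA).comp continuous_subtype_val) _

end Pool.Agent.helper73.TC
end
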